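import Pool.Agent.Lib.MP_d2fa5a_al.Cube6

set_option autoImplicit false

namespace Pool.Agent.Results.MP_d2fa5a_al.NoFibringIsom

open Pool.Agent.Lib.MP_d2fa5a_al

/-- If `L` is disconnected, an algebraically fibred uniform lattice in `H × S_L` has a
finite-index subgroup that is a direct product of two infinite groups. Here `S_L` is the isometry
group of the universal cover of the Salvetti complex. -/
theorem result {V : Type} [Fintype V] (L : SimpleGraph V) (hL : ¬ L.Preconnected)
    (K : Type) [CommGroup K] [TopologicalSpace K] [CompactSpace K] [T2Space K]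
    (n : ℕ) (𝔤 : Type) [LieRing 𝔤] [LieAlgebra ℝ 𝔤] [FiniteDimensional ℝ 𝔤]
    (θ : 𝔤 ≃ₗ⁅ℝ⁆ 𝔤) (hθ : IsNoncompactType 𝔤 θ)
    (H : Type) [Group H] [TopologicalSpace H] [IsTopologicalGroup H]
    (H' : Subgroup H) (hopen : IsOpen (H' : Set H)) (hindex : H'.FiniteIndex)
    (e : H' ≃ₜ* K × IsomE n × AutLie0 𝔤)
    (Γ : Subgroup (H × IsomS L)) (hdisc : DiscreteTopology Γ)
    (hcpt : CompactSpace ((H × IsomS L) ⧸ Γ)) (hfib : Fibred Γ) : VirtProduct Γ := by
  obtain ⟨φ, hφ, hker⟩ := hfib
  obtain ⟨G, _, _, _, _, _, _, hG, ⟨f⟩⟩ := hθ.exists_model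
  exact reducible_of_fibred' hL hG H' hopen (e.trans
    { (MulEquiv.refl K).prodCongr ((MulEquiv.refl (IsomE n)).prodCongr f.toMulEquiv) with
      continuous_toFun := continuous_id.prodMap (continuous_id.prodMap f.continuous)
      continuous_invFun := continuous_id.prodMap (continuous_id.prodMap f.symm.continuous) })
    (rho hL) (isInducing_rho hL) (rho_injective hL) (exists_rho hL) Γ φ hφ hker

end Pool.Agent.Results.MP_d2fa5a_al.NoFibringIsom
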